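import Mathlib
set_option autoImplicit false

namespace Pool.Agent.Results.MP_047b76_an.Exists

open Real Filter Topology

noncomputable def bb (n : ℕ) : ℝ := 4 ^ n * (n * n.factorial)

noncomputable def tm {e : ℕ} (n : ℕ) (x : EuclideanSpace ℝ (Fin (e + 1))) : ℝ :=
  (1 / 4) ^ n * cos (bb n * x (Fin.ofNat (e + 1) n))

lemma tm_le {e : ℕ} (n : ℕ) (x : EuclideanSpace ℝ (Fin (e + 1))) : ‖tm n x‖ ≤ (1 / 4) ^ n := by
  rw [tm, norm_mul, norm_pow, norm_eq_abs, abs_of_pos (by norm_num)]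
  exact mul_le_of_le_one_right (by positivity) (abs_cos_le_one _)

lemma geo : HasSum (fun n : ℕ => (1 / 4 : ℝ) ^ n) (4 / 3) := by
  convert hasSum_geometric_of_lt_one (r := 1 / 4) (by norm_num) (by norm_num) using 1
  norm_num

lemma fac (n : ℕ) : ∑ k ∈ Finset.range n, (k * k.factorial : ℝ) ≤ n.factorial := by
  induction n with
  | zero => simp
  | succ n ih => rw [Finset.sum_range_succ, Nat.factorial_succ]; push_cast; linarith

lemma est {e : ℕ} (n : ℕ) (x y : EuclideanSpace ℝ (Fin (e + 1))) (L : ℝ) (hL : ‖x - y‖ ≤ L)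
    (h : 1 ≤ |cos (bb n * x (Fin.ofNat (e + 1) n)) - cos (bb n * y (Fin.ofNat (e + 1) n))|) :
    (1 / 4) ^ n / 3 - L * n.factorial ≤ |∑' k, tm k x - ∑' k, tm k y| := by
  have s : ∀ x : EuclideanSpace ℝ (Fin (e + 1)), Summable fun k => tm k x := fun x =>
    .of_norm_bounded geo.summable (fun k => tm_le k x)
  have hL0 : 0 ≤ L := (norm_nonneg _).trans hL
  rw [← (s x).tsum_sub (s y), ← ((s x).sub (s y)).sum_add_tsum_nat_add (n + 1),
    Finset.sum_range_succ]
  have h1 : |∑ k ∈ Finset.range n, (tm k x - tm k y)| ≤ L * n.factorial := by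
    refine (Finset.abs_sum_le_sum_abs _ _).trans ((Finset.sum_le_sum
      (g := fun k : ℕ => L * (k * k.factorial : ℝ)) fun k _ => ?_).trans ?_)
    · rw [tm, tm, ← mul_sub, abs_mul, abs_of_pos (by positivity)]
      have a1 := abs_cos_sub_cos_le (bb k * x (Fin.ofNat (e + 1) k)) (bb k * y (Fin.ofNat (e + 1) k))
      have a2 : |x (Fin.ofNat (e + 1) k) - y (Fin.ofNat (e + 1) k)| ≤ L :=
        (PiLp.norm_apply_le (x - y) _).trans hL
      have b0 : 0 ≤ bb k := by unfold bb; positivity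
      rw [← mul_sub, abs_mul, abs_of_nonneg b0] at a1
      calc _ ≤ (1 / 4) ^ k * (bb k * L) := by gcongr; exact a1.trans (by gcongr)
        _ = _ := by rw [bb, one_div, inv_pow]; field_simp
    · rw [← Finset.mul_sum]; gcongr; exact fac n
  have h2 : ‖∑' k, (tm (k + (n + 1)) x - tm (k + (n + 1)) y)‖ ≤ (1 / 4) ^ n / 2 * (4 / 3) := by
    refine tsum_of_norm_bounded (geo.mul_left _) (fun k => (norm_sub_le _ _).trans ?_)
    have a1 := tm_le (k + (n + 1)) x
    have a2 := tm_le (k + (n + 1)) y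
    rw [pow_add, pow_succ] at a1 a2
    linarith
  have h3 : (1 / 4) ^ n ≤ |tm n x - tm n y| := by
    rw [tm, tm, ← mul_sub, abs_mul, abs_of_pos (by positivity)]
    exact le_mul_of_one_le_right (by positivity) h
  rw [norm_eq_abs] at h2
  generalize ∑ k ∈ Finset.range n, (tm k x - tm k y) = p at *
  generalize ∑' k, (tm (k + (n + 1)) x - tm (k + (n + 1)) y) = q at *
  generalize tm n x - tm n y = r at *
  have := abs_add_three (p + r + q) (-p) (-q)
  rw [abs_neg, abs_neg, show p + r + q + -p + -q = r by ring] at this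
  linarith

lemma osc (w a : ℝ) : ∃ v ∈ Set.Icc a (a + 2 * π), 1 ≤ |cos v - cos w| := by
  have k : ∀ z, cos (toIcoMod two_pi_pos a z) = cos z := fun z =>
    cos_periodic.sub_zsmul_eq _
  by_cases h : 0 ≤ cos w
  · exact ⟨_, Set.Ico_subset_Icc_self (toIcoMod_mem_Ico two_pi_pos a π), by
      rw [k, cos_pi, le_abs]; right; linarith⟩
  · exact ⟨_, Set.Ico_subset_Icc_self (toIcoMod_mem_Ico two_pi_pos a 0), by
      rw [k, cos_zero, le_abs]; left; linarith⟩

theorem result (d : ℕ) : ∃ f : EuclideanSpace ℝ (Fin d) → ℝ, Continuous f ∧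
    ∀ (I : Set ℝ) (c c' : ℝ → EuclideanSpace ℝ (Fin d)), I.OrdConnected →
      (interior I).Nonempty → (∀ t ∈ I, HasDerivWithinAt c (c' t) I t) → ContinuousOn c' I →
      (∀ t ∈ I, ‖c' t‖ = 1) → ∀ t ∈ I, ¬ DifferentiableWithinAt ℝ (f ∘ c) I t := by
  rcases d with _ | e
  · refine ⟨0, continuous_zero, fun I c c' _ _ _ _ h t ht _ => ?_⟩
    have := h t ht
    rw [Subsingleton.elim (c' t) 0] at this
    simp at this
  refine ⟨fun x => ∑' k, tm k x, continuous_tsum (fun k => by unfold tm; fun_prop) geo.summable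
    tm_le, fun I c c' hI hint hc _ h1 t ht hg => ?_⟩
  obtain ⟨i, hi⟩ : ∃ i, c' t i ≠ 0 := by
    by_contra h
    push Not at h
    have := h1 t ht
    rw [show c' t = 0 from PiLp.ext h] at this
    simp at this
  have hφ : ∀ s ∈ I, HasDerivWithinAt (fun s => c s i) (c' s i) I s := fun s hs =>
    (EuclideanSpace.proj i : _ →L[ℝ] ℝ).hasFDerivAt.comp_hasDerivWithinAt s (hc s hs)
  have o1 : (fun s => s - t) =O[𝓝[I] t] fun s => c s i - c t i :=
    ((hφ t ht).isTheta_sub hi).symm.isBigO.comp_tendsto (tendsto_id.prodMk (tendsto_const_pure))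
  have o2 := ((hc t ht).differentiableWithinAt.isBigO_sub.trans o1).prod_left
    ((hg.isBigO_sub.trans o1).prod_left o1)
  obtain ⟨K, hK0, hK⟩ := o2.exists_pos
  obtain ⟨δ, hδ, hK⟩ := Metric.mem_nhdsWithin_iff.mp hK.bound
  have hJ : IsPreconnected (Metric.ball t δ ∩ I) :=
    ((convex_ball t δ).inter hI.convex).isPreconnected
  have hO := (hJ.image (fun s => c s i)
    (fun s hs => ((hφ s hs.2).continuousWithinAt.mono Set.inter_subset_right))).ordConnected
  obtain ⟨s0, hs0, hne⟩ : ∃ s0 ∈ Metric.ball t δ ∩ I, s0 ≠ t := by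
    have := (accPt_iff_frequently.mp (uniqueDiffOn_convex hI.convex hint t ht).accPt).and_eventually
      (Metric.ball_mem_nhds t hδ)
    obtain ⟨s, h2, h3⟩ := this.exists
    exact ⟨s, ⟨h3, h2.2⟩, h2.1⟩
  have hη : 0 < |c s0 i - c t i| := by
    have := hK hs0
    simp only [Set.mem_ofPred_eq, Prod.norm_mk, max_le_iff, norm_eq_abs] at this
    exact pos_of_mul_pos_right ((abs_pos.mpr (sub_ne_zero.mpr hne)).trans_le this.2.2) hK0.le
  have hsub := hO.uIcc_subset ⟨t, ⟨Metric.mem_ball_self hδ, ht⟩, rfl⟩ ⟨s0, hs0, rfl⟩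
  obtain ⟨m, hm⟩ := exists_nat_gt (12 * π * K + 2 * π / |c s0 i - c t i|)
  set n := i.1 + (e + 1) * m with hn
  have hidx : Fin.ofNat (e + 1) n = i := by
    ext; simp [hn, Nat.mod_eq_of_lt i.2]
  have hmn : (m : ℝ) ≤ n := by exact_mod_cast (by rw [hn]; nlinarith : m ≤ n)
  have hf1 : (1 : ℝ) ≤ n.factorial := by exact_mod_cast n.factorial_pos
  have p1 : 0 < 12 * π * K := by positivity
  have p2 : 0 < 2 * π / |c s0 i - c t i| := by positivity
  have n0 : (0 : ℝ) < n := by linarith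
  have hb : (n : ℝ) ≤ bb n := by
    have : (1 : ℝ) ≤ 4 ^ n := one_le_pow₀ (by norm_num)
    unfold bb; nlinarith [le_mul_of_one_le_right n0.le hf1]
  have b0 : 0 < bb n := by linarith
  have hρ : 2 * π / bb n ≤ |c s0 i - c t i| := by
    have : 2 * π / |c s0 i - c t i| < bb n := by linarith
    rw [div_lt_iff₀ hη] at this
    rw [div_le_iff₀ b0]; linarith
  obtain ⟨z, hz, hz1, hz2⟩ : ∃ z ∈ Set.uIcc (c t i) (c s0 i), |z - c t i| ≤ 2 * π / bb n ∧
      1 ≤ |cos (bb n * z) - cos (bb n * c t i)| := by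
    have hr : bb n * (2 * π / bb n) = 2 * π := by field_simp
    have r0 : 0 < 2 * π / bb n := by positivity
    generalize 2 * π / bb n = ρ at *
    rcases le_total (c t i) (c s0 i) with h | h
    · obtain ⟨v, hv, h2⟩ := osc (bb n * c t i) (bb n * c t i)
      rw [abs_of_nonneg (by linarith)] at hρ
      have a1 : c t i ≤ v / bb n := by rw [le_div_iff₀ b0]; linarith [hv.1]
      have a2 : v / bb n ≤ c t i + ρ := by rw [div_le_iff₀ b0]; linarith [hv.2]
      exact ⟨v / bb n, Set.mem_uIcc_of_le a1 (by linarith), abs_le.mpr ⟨by linarith, by linarith⟩,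
        by rwa [mul_div_cancel₀ _ b0.ne']⟩
    · obtain ⟨v, hv, h2⟩ := osc (bb n * c t i) (bb n * c t i - 2 * π)
      rw [abs_of_nonpos (by linarith)] at hρ
      have a1 : c t i - ρ ≤ v / bb n := by rw [le_div_iff₀ b0]; linarith [hv.1]
      have a2 : v / bb n ≤ c t i := by rw [div_le_iff₀ b0]; linarith [hv.2]
      exact ⟨v / bb n, Set.mem_uIcc_of_ge (by linarith) a2, abs_le.mpr ⟨by linarith, by linarith⟩,
        by rwa [mul_div_cancel₀ _ b0.ne']⟩
  obtain ⟨s, hs, rfl⟩ := hsub hz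
  have h2 := hK hs
  simp only [Set.mem_ofPred_eq, Prod.norm_mk, max_le_iff, norm_eq_abs, Function.comp] at h2
  have h3 : K * |c s i - c t i| ≤ K * (2 * π / bb n) := by gcongr
  have h4 := (est n (c s) (c t) _ (h2.1.trans h3) (by rwa [hidx])).trans (h2.2.1.trans h3)
  have h5 : (1 / 4 : ℝ) ^ n = n * n.factorial / bb n := by
    rw [bb, one_div, inv_pow]; field_simp
  rw [h5] at h4
  have h6 : (n : ℝ) * n.factorial / 3 - K * (2 * π) * n.factorial ≤ K * (2 * π) := by
    have := mul_le_mul_of_nonneg_left h4 b0.le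
    field_simp at this ⊢
    linarith
  nlinarith [mul_lt_mul_of_pos_right (by linarith : 12 * π * K < n) (by linarith : (0 : ℝ) < n.factorial)]

end Pool.Agent.Results.MP_047b76_an.Exists
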